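import Mathlib

/-!
# The space of the children

`Bs Ω`: the bounded ultrafilters on `Ω × ℕ`, a point at infinity for each level, and one more point.
-/

set_option autoImplicit false

namespace Pool.Agent.Q209.PG

open Set Topology Filter

/-- The ultrafilters on `Ω × ℕ` which contain a bounded set. -/
def Bdd (Ω : Type) [LinearOrder Ω] : Type :=
  {p : Ultrafilter (Ω × ℕ) // ∃ δ : Ω, {q : Ω × ℕ | q.1 ≤ δ} ∈ p}

/-- The bounded ultrafilters and the points `some j`, `j ∈ ℕ`, and `none`. -/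
def Bs (Ω : Type) [LinearOrder Ω] : Type := Bdd Ω ⊕ Option ℕ

variable {Ω : Type} [LinearOrder Ω]

instance : TopologicalSpace (Bdd Ω) := instTopologicalSpaceSubtype

instance : T2Space (Bdd Ω) := inferInstanceAs (T2Space {_p : Ultrafilter (Ω × ℕ) // _})

/-- The points of the first kind. -/
def ul (p : Bdd Ω) : Bs Ω := Sum.inl p

/-- The points of the second kind. -/
def lv (o : Option ℕ) : Bs Ω := Sum.inr o

variable [Nonempty Ω]

instance : TopologicalSpace (Bs Ω) where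
  IsOpen U := IsOpen {p : Bdd Ω | ul p ∈ U} ∧
    (∀ j, lv (some j) ∈ U → ∃ α : Ω, ∀ p : Bdd Ω, {q : Ω × ℕ | α < q.1 ∧ q.2 = j} ∈ p.1 → ul p ∈ U) ∧
    (lv none ∈ U → ∃ (α : Ω) (l : ℕ), ∀ p : Bdd Ω, {q : Ω × ℕ | α < q.1 ∧ l ≤ q.2} ∈ p.1 → ul p ∈ U)
  isOpen_univ := by
    obtain ⟨α⟩ := ‹Nonempty Ω›
    exact ⟨by simp, fun _ _ => ⟨α, fun _ _ => trivial⟩, fun _ => ⟨α, 0, fun _ _ => trivial⟩⟩
  isOpen_inter U V := by
    rintro ⟨h1, h2, h3⟩ ⟨k1, k2, k3⟩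
    refine ⟨h1.inter k1, fun j hj => ?_, fun hn => ?_⟩
    · obtain ⟨α, hα⟩ := h2 j hj.1
      obtain ⟨β, hβ⟩ := k2 j hj.2
      refine ⟨max α β, fun p hp => ⟨hα p (mem_of_superset hp fun q hq => ?_),
        hβ p (mem_of_superset hp fun q hq => ?_)⟩⟩
      · exact ⟨(le_max_left _ _).trans_lt hq.1, hq.2⟩
      · exact ⟨(le_max_right _ _).trans_lt hq.1, hq.2⟩
    · obtain ⟨α, l, hα⟩ := h3 hn.1
      obtain ⟨β, m, hβ⟩ := k3 hn.2
      refine ⟨max α β, max l m, fun p hp => ⟨hα p (mem_of_superset hp fun q hq => ?_),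
        hβ p (mem_of_superset hp fun q hq => ?_)⟩⟩
      · exact ⟨(le_max_left _ _).trans_lt hq.1, (le_max_left _ _).trans hq.2⟩
      · exact ⟨(le_max_right _ _).trans_lt hq.1, (le_max_right _ _).trans hq.2⟩
  isOpen_sUnion 𝒰 h𝒰 := by
    refine ⟨?_, ?_, ?_⟩
    · have : {p : Bdd Ω | ul p ∈ ⋃₀ 𝒰} = ⋃ U ∈ 𝒰, {p : Bdd Ω | ul p ∈ U} := by
        ext p
        simp
      rw [this]
      exact isOpen_biUnion fun U hU => (h𝒰 U hU).1
    · rintro j ⟨U, hU, hj⟩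
      obtain ⟨α, hα⟩ := (h𝒰 U hU).2.1 j hj
      exact ⟨α, fun p hp => ⟨U, hU, hα p hp⟩⟩
    · rintro ⟨U, hU, hj⟩
      obtain ⟨α, l, hα⟩ := (h𝒰 U hU).2.2 hj
      exact ⟨α, l, fun p hp => ⟨U, hU, hα p hp⟩⟩

theorem isOpen_bs {U : Set (Bs Ω)} : IsOpen U ↔ IsOpen {p : Bdd Ω | ul p ∈ U} ∧
    (∀ j, lv (some j) ∈ U → ∃ α : Ω, ∀ p : Bdd Ω, {q : Ω × ℕ | α < q.1 ∧ q.2 = j} ∈ p.1 →
      ul p ∈ U) ∧
    (lv none ∈ U → ∃ (α : Ω) (l : ℕ), ∀ p : Bdd Ω, {q : Ω × ℕ | α < q.1 ∧ l ≤ q.2} ∈ p.1 →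
      ul p ∈ U) := Iff.rfl

omit [Nonempty Ω] in
theorem isOpen_bdd (s : Set (Ω × ℕ)) : IsOpen {p : Bdd Ω | s ∈ p.1} :=
  (ultrafilter_isOpen_basic s).preimage continuous_subtype_val

/-- The open sets `{p | s ∈ p}` -/
theorem isOpen_ul {W : Set (Bdd Ω)} (hW : IsOpen W) : IsOpen (ul '' W) := by
  rw [isOpen_bs]
  refine ⟨?_, fun j hj => ?_, fun hn => ?_⟩
  · have : {p : Bdd Ω | ul p ∈ ul '' W} = W := by
      ext p
      constructor
      · rintro ⟨p', hp', h⟩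
        rwa [← Sum.inl.inj h]
      · exact fun h => ⟨p, h, rfl⟩
    rwa [this]
  · obtain ⟨p, -, hp⟩ := hj
    cases hp
  · obtain ⟨p, -, hp⟩ := hn
    cases hp

/-- neighbourhoods of the level points -/
def nj (α : Ω) (j : ℕ) : Set (Bs Ω) :=
  insert (lv (some j)) (ul '' {p : Bdd Ω | {q : Ω × ℕ | α < q.1 ∧ q.2 = j} ∈ p.1})

/-- neighbourhoods of the last point -/
def nn (α : Ω) (l : ℕ) : Set (Bs Ω) :=
  insert (lv none) (ul '' {p : Bdd Ω | {q : Ω × ℕ | α < q.1 ∧ l ≤ q.2} ∈ p.1})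

omit [Nonempty Ω] in
theorem ul_mem_nj {α : Ω} {j : ℕ} {p : Bdd Ω} :
    ul p ∈ nj α j ↔ {q : Ω × ℕ | α < q.1 ∧ q.2 = j} ∈ p.1 := by
  constructor
  · rintro (h | ⟨p', hp', h⟩)
    · cases h
    · rw [← Sum.inl.inj h]
      exact hp'
  · exact fun h => Or.inr ⟨p, h, rfl⟩

omit [Nonempty Ω] in
theorem ul_mem_nn {α : Ω} {l : ℕ} {p : Bdd Ω} :
    ul p ∈ nn α l ↔ {q : Ω × ℕ | α < q.1 ∧ l ≤ q.2} ∈ p.1 := by
  constructor
  · rintro (h | ⟨p', hp', h⟩)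
    · cases h
    · rw [← Sum.inl.inj h]
      exact hp'
  · exact fun h => Or.inr ⟨p, h, rfl⟩

theorem isOpen_nj (α : Ω) (j : ℕ) : IsOpen (nj α j) := by
  rw [isOpen_bs]
  refine ⟨?_, fun i hi => ?_, fun hn => ?_⟩
  · simp only [ul_mem_nj]
    exact isOpen_bdd _
  · rcases hi with h | ⟨p, -, hp⟩
    · have : i = j := Option.some.inj (Sum.inr.inj h)
      subst this
      exact ⟨α, fun p hp => ul_mem_nj.2 hp⟩
    · cases hp
  · rcases hn with h | ⟨p, -, hp⟩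
    · cases h
    · cases hp

theorem isOpen_nn (α : Ω) (l : ℕ) : IsOpen (nn α l) := by
  rw [isOpen_bs]
  refine ⟨?_, fun i hi => ?_, fun hn => ?_⟩
  · simp only [ul_mem_nn]
    exact isOpen_bdd _
  · rcases hi with h | ⟨p, -, hp⟩
    · cases h
    · cases hp
  · exact ⟨α, l, fun p hp => ul_mem_nn.2 hp⟩

/-- separation of a bounded ultrafilter from sets of unbounded elements -/
theorem sep_ul (p : Bdd Ω) : ∃ δ : Ω, IsOpen (ul '' {q : Bdd Ω | {r : Ω × ℕ | r.1 ≤ δ} ∈ q.1}) ∧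
    ul p ∈ ul '' {q : Bdd Ω | {r : Ω × ℕ | r.1 ≤ δ} ∈ q.1} := by
  obtain ⟨δ, hδ⟩ := p.2
  exact ⟨δ, isOpen_ul (isOpen_bdd _), p, hδ, rfl⟩

omit [Nonempty Ω] in
theorem disj_of {p : Bdd Ω} {s t : Set (Ω × ℕ)} (hs : s ∈ p.1) (ht : t ∈ p.1)
    (hd : ∀ q, q ∈ s → q ∉ t) : False := by
  obtain ⟨q, hq⟩ := p.1.nonempty_of_mem (inter_mem hs ht)
  exact hd q hq.1 hq.2

instance : T2Space (Bs Ω) := by
  have h1 : ∀ (p : Bdd Ω) (o : Option ℕ), ∃ U V : Set (Bs Ω), IsOpen U ∧ IsOpen V ∧ ul p ∈ U ∧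
      lv o ∈ V ∧ Disjoint U V := by
    intro p o
    obtain ⟨δ, hopen, hp⟩ := sep_ul p
    cases o with
    | none =>
      refine ⟨_, nn δ 0, hopen, isOpen_nn _ _, hp, Or.inl rfl, Set.disjoint_left.2 ?_⟩
      rintro _ ⟨q, hq, rfl⟩ h
      exact disj_of hq (ul_mem_nn.1 h) fun r hr hr' => absurd hr'.1 (not_lt.2 hr)
    | some j =>
      refine ⟨_, nj δ j, hopen, isOpen_nj _ _, hp, Or.inl rfl, Set.disjoint_left.2 ?_⟩
      rintro _ ⟨q, hq, rfl⟩ h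
      exact disj_of hq (ul_mem_nj.1 h) fun r hr hr' => absurd hr'.1 (not_lt.2 hr)
  have h2 : ∀ (i : ℕ) (o : Option ℕ), lv (some i) ≠ (lv o : Bs Ω) → ∃ U V : Set (Bs Ω), IsOpen U ∧
      IsOpen V ∧ lv (some i) ∈ U ∧ lv o ∈ V ∧ Disjoint U V := by
    intro i o hio
    obtain ⟨α⟩ := ‹Nonempty Ω›
    cases o with
    | none =>
      refine ⟨nj α i, nn α (i + 1), isOpen_nj _ _, isOpen_nn _ _, Or.inl rfl, Or.inl rfl,
        Set.disjoint_left.2 ?_⟩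
      rintro _ (rfl | ⟨q, hq, rfl⟩) h
      · rcases h with h | ⟨p, -, hp⟩
        · cases h
        · cases hp
      · exact disj_of hq (ul_mem_nn.1 h) fun r hr hr' => by
          have := hr.2
          have := hr'.2
          omega
    | some j =>
      have hij : i ≠ j := fun h => hio (by rw [h])
      refine ⟨nj α i, nj α j, isOpen_nj _ _, isOpen_nj _ _, Or.inl rfl, Or.inl rfl,
        Set.disjoint_left.2 ?_⟩
      rintro _ (rfl | ⟨q, hq, rfl⟩) h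
      · rcases h with h | ⟨p, -, hp⟩
        · exact hio h
        · cases hp
      · exact disj_of hq (ul_mem_nj.1 h) fun r hr hr' => by
          have := hr.2
          have := hr'.2
          omega
  refine ⟨fun x y hxy => ?_⟩
  rcases x with p | o <;> rcases y with p' | o'
  · have hne : p ≠ p' := fun h => hxy (by rw [h])
    obtain ⟨U, V, hU, hV, hp, hp', hd⟩ := t2_separation hne
    refine ⟨ul '' U, ul '' V, isOpen_ul hU, isOpen_ul hV, ⟨p, hp, rfl⟩, ⟨p', hp', rfl⟩, ?_⟩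
    rw [Set.disjoint_left]
    rintro _ ⟨q, hq, rfl⟩ ⟨q', hq', h⟩
    rw [Sum.inl.inj h] at hq'
    exact Set.disjoint_left.1 hd hq hq'
  · exact h1 p o'
  · obtain ⟨U, V, hU, hV, hp, hp', hd⟩ := h1 p' o
    exact ⟨V, U, hV, hU, hp', hp, hd.symm⟩
  · cases o with
    | some i => exact h2 i o' hxy
    | none =>
      cases o' with
      | none => exact absurd rfl hxy
      | some j =>
        obtain ⟨U, V, hU, hV, hp, hp', hd⟩ := h2 j none (Ne.symm hxy)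
        exact ⟨V, U, hV, hU, hp', hp, hd.symm⟩

/-- The isolated points. -/
def pt (q : Ω × ℕ) : Bdd Ω := ⟨pure q, q.1, (le_refl q.1 : q ∈ {r : Ω × ℕ | r.1 ≤ q.1})⟩

/-- The set of the isolated points `(β, j)`. -/
def II (Ω : Type) [LinearOrder Ω] : Set (Bs Ω) := range fun q : Ω × ℕ => ul (pt q)

omit [Nonempty Ω] in
theorem mem_pt {q : Ω × ℕ} {s : Set (Ω × ℕ)} : s ∈ (pt q).1 ↔ q ∈ s := Ultrafilter.mem_pure

theorem isOpen_II : ∀ y ∈ II Ω, IsOpen ({y} : Set (Bs Ω)) := by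
  rintro _ ⟨q, rfl⟩
  have : ({ul (pt q)} : Set (Bs Ω)) = ul '' {p : Bdd Ω | {q} ∈ p.1} := by
    ext x
    constructor
    · rintro rfl
      exact ⟨pt q, mem_pt.2 rfl, rfl⟩
    · rintro ⟨p, hp, rfl⟩
      have h : p = pt q := by
        refine Subtype.ext (Ultrafilter.ext fun s => ?_)
        rw [mem_pt]
        constructor
        · intro hs
          obtain ⟨r, hr⟩ := p.1.nonempty_of_mem (inter_mem hs hp)
          rw [← hr.2]
          exact hr.1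
        · intro hs
          exact mem_of_superset hp (by rintro r rfl; exact hs)
      rw [h]
      rfl
  rw [this]
  exact isOpen_ul (isOpen_bdd _)

/-- The compact sets. -/
def CC (δ : Ω) (k : ℕ) : Set (Bs Ω) :=
  ul '' {p : Bdd Ω | {q : Ω × ℕ | q.1 ≤ δ} ∈ p.1} ∪ lv '' {o | o = none ∨ ∃ j < k, o = some j}

theorem isCompact_CC (δ : Ω) (k : ℕ) : IsCompact (CC δ k) := by
  refine IsCompact.union ?_ ?_
  · have h0 : IsCompact ({p | {q : Ω × ℕ | q.1 ≤ δ} ∈ p.1} :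
        Set {p : Ultrafilter (Ω × ℕ) // ∃ δ : Ω, {q : Ω × ℕ | q.1 ≤ δ} ∈ p}) := by
      rw [Subtype.isCompact_iff]
      have : Subtype.val '' ({p | {q : Ω × ℕ | q.1 ≤ δ} ∈ p.1} :
          Set {p : Ultrafilter (Ω × ℕ) // ∃ δ : Ω, {q : Ω × ℕ | q.1 ≤ δ} ∈ p}) =
          {p : Ultrafilter (Ω × ℕ) | {q : Ω × ℕ | q.1 ≤ δ} ∈ p} := by
        ext p
        constructor
        · rintro ⟨p', hp', rfl⟩
          exact hp'
        · intro hp
          exact ⟨⟨p, δ, hp⟩, hp, rfl⟩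
      rw [this]
      exact (ultrafilter_isClosed_basic _).isCompact
    have h1 : IsCompact {p : Bdd Ω | {q : Ω × ℕ | q.1 ≤ δ} ∈ p.1} := h0
    refine h1.image ?_
    rw [continuous_def]
    intro s hs
    exact (isOpen_bs.1 hs).1
  · refine Set.Finite.isCompact (Set.Finite.image _ ?_)
    have : {o : Option ℕ | o = none ∨ ∃ j < k, o = some j} =
        insert none (some '' Iio k) := by
      ext o
      simp only [mem_ofPred_eq, mem_insert_iff, mem_image, mem_Iio]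
      constructor
      · rintro (h | ⟨j, hj, h⟩)
        · exact Or.inl h
        · exact Or.inr ⟨j, hj, h.symm⟩
      · rintro (h | ⟨j, hj, h⟩)
        · exact Or.inl h
        · exact Or.inr ⟨j, hj, h.symm⟩
    rw [this]
    exact ((Set.finite_Iio k).image _).insert _

omit [Nonempty Ω] in
theorem pt_mem_CC {q : Ω × ℕ} {δ : Ω} {k : ℕ} : ul (pt q) ∈ CC δ k ↔ q.1 ≤ δ := by
  constructor
  · rintro (⟨p, hp, h⟩ | ⟨o, -, h⟩)
    · rw [Sum.inl.inj h] at hp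
      exact (mem_pt (s := {q : Ω × ℕ | q.1 ≤ δ})).1 hp
    · cases h
  · intro h
    exact Or.inl ⟨pt q, (mem_pt (s := {q : Ω × ℕ | q.1 ≤ δ})).2 h, rfl⟩

omit [Nonempty Ω] in
theorem CC_mono {δ δ' : Ω} {k k' : ℕ} (h : δ ≤ δ') (hk : k ≤ k') : CC δ k ⊆ CC δ' k' := by
  rintro _ (⟨p, hp, rfl⟩ | ⟨o, ho, rfl⟩)
  · exact Or.inl ⟨p, mem_of_superset hp fun q (hq : q.1 ≤ δ) => hq.trans h, rfl⟩
  · refine Or.inr ⟨o, ?_, rfl⟩
    rcases ho with h | ⟨j, hj, h⟩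
    · exact Or.inl h
    · exact Or.inr ⟨j, hj.trans_le hk, h⟩

/-- No compact set contains all the isolated points. -/
theorem not_compact (hΩ : ∀ α : Ω, ∃ β, α < β) {K : Set (Bs Ω)} (hK : IsCompact K) :
    ¬ II Ω ⊆ K := by
  intro hIK
  -- some level point is not in `K`
  have hD : ∀ N : ℕ, IsClosed (lv '' {o | ∃ j, N ≤ j ∧ o = some j} : Set (Bs Ω)) := by
    intro N
    rw [← isOpen_compl_iff, isOpen_bs]
    obtain ⟨α⟩ := ‹Nonempty Ω›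
    have h : ∀ p : Bdd Ω, ul p ∈ (lv '' {o | ∃ j, N ≤ j ∧ o = some j} : Set (Bs Ω))ᶜ := by
      rintro p ⟨o, -, ho⟩
      cases ho
    refine ⟨?_, fun _ _ => ⟨α, fun p _ => h p⟩, fun _ => ⟨α, 0, fun p _ => h p⟩⟩
    convert isOpen_univ
    exact eq_univ_of_forall h
  obtain ⟨N, hN⟩ : ∃ N, K ∩ (lv '' {o | ∃ j, N ≤ j ∧ o = some j} : Set (Bs Ω)) = ∅ := by
    refine hK.elim_directed_family_closed _ hD ?_ ?_
    · rw [eq_empty_iff_forall_notMem]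
      rintro x ⟨-, hx⟩
      rw [mem_iInter] at hx
      obtain ⟨o, ⟨j, -, rfl⟩, rfl⟩ := hx 0
      obtain ⟨o, ⟨i, hi, rfl⟩, h⟩ := hx (j + 1)
      have : i = j := Option.some.inj (Sum.inr.inj h)
      omega
    · refine directed_of_isDirected_le fun M N hMN => ?_
      rintro _ ⟨o, ⟨j, hj, rfl⟩, rfl⟩
      exact ⟨_, ⟨j, hMN.trans hj, rfl⟩, rfl⟩
  have hlN : (lv (some N) : Bs Ω) ∉ K := fun h => by
    have : (lv (some N) : Bs Ω) ∈ K ∩ (lv '' {o | ∃ j, N ≤ j ∧ o = some j} : Set (Bs Ω)) :=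
      ⟨h, _, ⟨N, le_rfl, rfl⟩, rfl⟩
    rw [hN] at this
    exact this
  -- the tails of the level
  have hT : ∀ α : Ω, IsClosed (nj α N) := by
    intro α
    rw [← isOpen_compl_iff, isOpen_bs]
    refine ⟨?_, fun j hj => ?_, fun _ => ⟨α, N + 1, fun p hp h => ?_⟩⟩
    · have : {p : Bdd Ω | ul p ∈ (nj α N)ᶜ} = {p : Bdd Ω | {q : Ω × ℕ | α < q.1 ∧ q.2 = N}ᶜ ∈ p.1} := by
        ext p
        rw [mem_ofPred_eq, mem_compl_iff, ul_mem_nj, mem_ofPred_eq, Ultrafilter.compl_mem_iff_notMem]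
      rw [this]
      exact isOpen_bdd _
    · have hjN : j ≠ N := fun h => hj (by rw [h]; exact Or.inl rfl)
      refine ⟨α, fun p hp h => ?_⟩
      exact disj_of hp (ul_mem_nj.1 h) fun r hr hr' => hjN (hr.2.symm.trans hr'.2)
    · exact disj_of hp (ul_mem_nj.1 h) fun r hr hr' => by
        have := hr.2
        have := hr'.2
        omega
  obtain ⟨α, hα⟩ : ∃ α : Ω, K ∩ nj α N = ∅ := by
    refine hK.elim_directed_family_closed _ hT ?_ ?_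
    · rw [eq_empty_iff_forall_notMem]
      rintro x ⟨hxK, hx⟩
      rw [mem_iInter] at hx
      rcases x with p | o
      · obtain ⟨δ, hδ⟩ := p.2
        exact disj_of hδ (ul_mem_nj.1 (hx δ)) fun r hr hr' => absurd hr'.1 (not_lt.2 hr)
      · obtain ⟨α⟩ := ‹Nonempty Ω›
        rcases hx α with h | ⟨p, -, hp⟩
        · have h' : (Sum.inr o : Bs Ω) = lv (some N) := h
          rw [h'] at hxK
          exact hlN hxK
        · cases hp
    · refine directed_of_isDirected_le fun a b hab => ?_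
      rintro x (h | ⟨p, hp, rfl⟩)
      · exact Or.inl h
      · exact Or.inr ⟨p, mem_of_superset hp fun q hq => ⟨hab.trans_lt hq.1, hq.2⟩, rfl⟩
  obtain ⟨β, hβ⟩ := hΩ α
  have : ul (pt (β, N)) ∈ K ∩ nj α N := ⟨hIK ⟨(β, N), rfl⟩, ul_mem_nj.2 (mem_pt.2 ⟨hβ, rfl⟩)⟩
  rw [hα] at this
  exact this

/-- The neighbourhoods of the compact sets `CC δ k`. -/
theorem nbhd_CC {δ : Ω} {k : ℕ} {G : Set (Bs Ω)} (hG : IsOpen G) (hCG : CC δ k ⊆ G) :
    ∃ (γ : Ω) (l : ℕ), ∀ p : Bdd Ω, ul p ∉ G →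
      {q : Ω × ℕ | δ < q.1 ∧ (q.1 ≤ γ ∨ (k ≤ q.2 ∧ q.2 < l))} ∈ p.1 := by
  classical
  obtain ⟨-, h2, h3⟩ := isOpen_bs.1 hG
  have hj : ∀ j, ∃ α : Ω, j < k → ∀ p : Bdd Ω, {q : Ω × ℕ | α < q.1 ∧ q.2 = j} ∈ p.1 → ul p ∈ G := by
    intro j
    by_cases h : j < k
    · obtain ⟨α, hα⟩ := h2 j (hCG (Or.inr ⟨_, Or.inr ⟨j, h, rfl⟩, rfl⟩))
      exact ⟨α, fun _ => hα⟩
    · exact ⟨Classical.arbitrary Ω, fun h' => (h h').elim⟩
  choose α hα using hj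
  obtain ⟨α', l, hα'⟩ := h3 (hCG (Or.inr ⟨_, Or.inl rfl, rfl⟩))
  obtain ⟨γ, hγ⟩ : ∃ γ : Ω, α' ≤ γ ∧ ∀ j < k, α j ≤ γ := by
    obtain ⟨M, hM⟩ := (((Set.finite_Iio k).image α).insert α').bddAbove
    exact ⟨M, hM (Or.inl rfl), fun j hj => hM (Or.inr ⟨j, hj, rfl⟩)⟩
  refine ⟨γ, l, fun p hp => ?_⟩
  have k1 : {q : Ω × ℕ | q.1 ≤ δ}ᶜ ∈ p.1 := by
    rw [Ultrafilter.compl_mem_iff_notMem]
    exact fun h => hp (hCG (Or.inl ⟨p, h, rfl⟩))
  have k2 : {q : Ω × ℕ | α' < q.1 ∧ l ≤ q.2}ᶜ ∈ p.1 := by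
    rw [Ultrafilter.compl_mem_iff_notMem]
    exact fun h => hp (hα' p h)
  have k3 : (⋂ j ∈ Iio k, {q : Ω × ℕ | α j < q.1 ∧ q.2 = j}ᶜ) ∈ p.1 := by
    refine (biInter_mem (Set.finite_Iio k)).2 fun j hj => ?_
    show {q : Ω × ℕ | α j < q.1 ∧ q.2 = j}ᶜ ∈ p.1
    rw [Ultrafilter.compl_mem_iff_notMem]
    exact fun h => hp (hα j hj p h)
  refine mem_of_superset (inter_mem k1 (inter_mem k2 k3)) ?_
  rintro q ⟨h1, h2, h3⟩
  refine ⟨not_le.1 h1, ?_⟩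
  by_cases hq : q.1 ≤ γ
  · exact Or.inl hq
  · refine Or.inr ⟨?_, ?_⟩
    · by_contra hk
      exact mem_iInter₂.1 h3 q.2 (not_le.1 hk)
        ⟨(hγ.2 _ (not_le.1 hk)).trans_lt (not_le.1 hq), rfl⟩
    · by_contra hl
      exact h2 ⟨hγ.1.trans_lt (not_le.1 hq), not_lt.1 hl⟩

end Pool.Agent.Q209.PG
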