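import Pool.Agent.Q209.PG.Tree2

/-!
# The game and the strategy of One
-/

set_option autoImplicit false

namespace Pool.Agent.Q209.PG

open Set Topology Filter

/-- An `ω`-cover: open sets, different from the whole space, every finite set is inside of one. -/
def IsOmegaCover {X : Type} [TopologicalSpace X] (𝒰 : Set (Set X)) : Prop :=
  (∀ U ∈ 𝒰, IsOpen U) ∧ ⋃₀ 𝒰 = univ ∧ univ ∉ 𝒰 ∧ ∀ F : Set X, F.Finite → ∃ U ∈ 𝒰, F ⊆ U

/-- A `k`-cover: open sets, different from the whole space, every nonempty compact set is inside of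
one. -/
def IsKCover {X : Type} [TopologicalSpace X] (𝒰 : Set (Set X)) : Prop :=
  (∀ U ∈ 𝒰, IsOpen U) ∧ ⋃₀ 𝒰 = univ ∧ univ ∉ 𝒰 ∧
    ∀ K : Set X, K.Nonempty → IsCompact K → ∃ U ∈ 𝒰, K ⊆ U

/-- The moves `U 0, …, U (n - 1)` of Two before round `n`. -/
def hist {X : Type} (U : ℕ → Set X) (n : ℕ) : List (Set X) := (List.range n).map U

/-- One has a winning strategy in `G₁(K_X, Ω_X)`. -/
def OneWins (X : Type) [TopologicalSpace X] : Prop :=
  ∃ σ : List (Set X) → Set (Set X), (∀ l, IsKCover (σ l)) ∧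
    ∀ U : ℕ → Set X, (∀ n, U n ∈ σ (hist U n)) → ¬ IsOmegaCover (range U)

/-- One has a winning predetermined strategy in `G₁(K_X, Ω_X)`. -/
def OneWinsPre (X : Type) [TopologicalSpace X] : Prop :=
  ∃ 𝒰 : ℕ → Set (Set X), (∀ n, IsKCover (𝒰 n)) ∧
    ∀ U : ℕ → Set X, (∀ n, U n ∈ 𝒰 n) → ¬ IsOmegaCover (range U)

variable {C : Type} {I : Set C} [TopologicalSpace C]

/-- the move of One at a node -/
def move (I : Set C) (s : (ℕ → C) × ℕ) : Set (Set (Tr C I)) :=
  {U | ∃ y ∈ I, U = (cyl I (Function.update s.1 s.2 y) (s.2 + 1))ᶜ}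

open Classical in
/-- the new node -/
noncomputable def step (I : Set C) (s : (ℕ → C) × ℕ) (U : Set (Tr C I)) : (ℕ → C) × ℕ :=
  if h : ∃ y ∈ I, U = (cyl I (Function.update s.1 s.2 y) (s.2 + 1))ᶜ then
    (Function.update s.1 s.2 h.choose, s.2 + 1) else s

omit [TopologicalSpace C] in
theorem step_of_mem {s : (ℕ → C) × ℕ} {U : Set (Tr C I)} (h : U ∈ move I s) :
    ∃ y ∈ I, step I s U = (Function.update s.1 s.2 y, s.2 + 1) ∧
      U = (cyl I (Function.update s.1 s.2 y) (s.2 + 1))ᶜ := by
  have h' : ∃ y ∈ I, U = (cyl I (Function.update s.1 s.2 y) (s.2 + 1))ᶜ := h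
  refine ⟨h'.choose, h'.choose_spec.1, ?_, h'.choose_spec.2⟩
  rw [step, dif_pos h']

/-- legal nodes -/
def Legal (I : Set C) (s : (ℕ → C) × ℕ) : Prop := ∀ i < s.2, s.1 i ∈ I

theorem legal_update {s : (ℕ → C) × ℕ} (hs : Legal I s) {y : C} (hy : y ∈ I) :
    Legal I (Function.update s.1 s.2 y, s.2 + 1) := by
  intro i hi
  rcases (Nat.lt_succ_iff.1 hi).lt_or_eq with h | h
  · show Function.update s.1 s.2 y i ∈ I
    rw [Function.update_of_ne h.ne]
    exact hs i h
  · show Function.update s.1 s.2 y i ∈ I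
    rw [h, Function.update_self]
    exact hy

theorem legal_step {s : (ℕ → C) × ℕ} (hs : Legal I s) (U : Set (Tr C I)) :
    Legal I (step I s U) := by
  by_cases h : U ∈ move I s
  · obtain ⟨y, hy, h1, -⟩ := step_of_mem h
    rw [h1]
    exact legal_update hs hy
  · have h' : ¬ ∃ y ∈ I, U = (cyl I (Function.update s.1 s.2 y) (s.2 + 1))ᶜ := h
    rw [step, dif_neg h']
    exact hs

/-- the node after the moves in the list -/
noncomputable def node (I : Set C) (c₀ : C) (l : List (Set (Tr C I))) : (ℕ → C) × ℕ :=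
  l.foldl (step I) (fun _ => c₀, 0)

theorem legal_node (c₀ : C) (l : List (Set (Tr C I))) : Legal I (node I c₀ l) := by
  have : ∀ (l : List (Set (Tr C I))) (s : (ℕ → C) × ℕ), Legal I s → Legal I (l.foldl (step I) s) := by
    intro l
    induction l with
    | nil => exact fun s hs => hs
    | cons U l ih => exact fun s hs => ih _ (legal_step hs U)
  exact this l _ (fun i hi => absurd hi (Nat.not_lt_zero i))

theorem oneWins [T1Space C] (hne : I.Nonempty) (hIK : ∀ K : Set C, IsCompact K → ¬ I ⊆ K) :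
    OneWins (Tr C I) := by
  obtain ⟨c₀, hc₀⟩ := hne
  have hmove : ∀ s : (ℕ → C) × ℕ, Legal I s → ∀ K : Set (Tr C I), IsCompact K →
      ∃ U ∈ move I s, K ⊆ U := by
    intro s hs K hK
    obtain ⟨y, hy, h⟩ := exists_child hIK hK hs
    exact ⟨_, ⟨y, hy, rfl⟩, h⟩
  refine ⟨fun l => move I (node I c₀ l), fun l => ⟨?_, ?_, ?_, fun K _ hK =>
    hmove _ (legal_node c₀ l) K hK⟩, ?_⟩
  · rintro U ⟨y, hy, rfl⟩
    exact isOpen_cyl_compl (legal_update (legal_node c₀ l) hy)
  · refine eq_univ_of_forall fun x => ?_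
    obtain ⟨U, hU, hx⟩ := hmove _ (legal_node c₀ l) {x} isCompact_singleton
    exact ⟨U, hU, hx rfl⟩
  · rintro ⟨y, hy, h⟩
    have hleg := legal_update (legal_node c₀ l) hy
    have : ext (Function.update (node I c₀ l).1 (node I c₀ l).2 y) ((node I c₀ l).2 + 1) hleg y ∈
        (cyl I (Function.update (node I c₀ l).1 (node I c₀ l).2 y) ((node I c₀ l).2 + 1))ᶜ :=
      h ▸ mem_univ _
    exact this fun i hi => ext_lt hi
  · intro U hU hom
    -- the node after n moves
    let nd : ℕ → (ℕ → C) × ℕ := fun n => node I c₀ (hist U n)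
    have hsucc : ∀ n, ∃ y ∈ I, nd (n + 1) = (Function.update (nd n).1 (nd n).2 y, (nd n).2 + 1) ∧
        U n = (cyl I (Function.update (nd n).1 (nd n).2 y) ((nd n).2 + 1))ᶜ := by
      intro n
      obtain ⟨y, hy, h1, h2⟩ := step_of_mem (hU n)
      refine ⟨y, hy, ?_, h2⟩
      rw [← h1]
      show node I c₀ (hist U (n + 1)) = _
      simp only [hist, List.range_succ, List.map_append, List.map_cons, List.map_nil, node,
        List.foldl_append, List.foldl_cons, List.foldl_nil]
    have hlen : ∀ n, (nd n).2 = n := by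
      intro n
      induction n with
      | zero => rfl
      | succ n ih =>
        obtain ⟨y, -, h, -⟩ := hsucc n
        rw [h]
        show (nd n).2 + 1 = n + 1
        rw [ih]
    choose y hy hnd hUn using hsucc
    have hval : ∀ n, ∀ i < n, (nd n).1 i = y i := by
      intro n
      induction n with
      | zero => intro i hi; exact absurd hi (Nat.not_lt_zero i)
      | succ n ih =>
        intro i hi
        rw [hnd n, hlen n]
        show Function.update (nd n).1 n (y n) i = y i
        rcases (Nat.lt_succ_iff.1 hi).lt_or_eq with h | h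
        · rw [Function.update_of_ne h.ne, ih i h]
        · rw [h, Function.update_self]
    have hb : ∀ n, (⟨y, fun i hi => (hi (hy i)).elim⟩ : Tr C I) ∉ U n := by
      intro n h
      rw [hUn n] at h
      apply h
      intro i hi
      show y i = Function.update (nd n).1 (nd n).2 (y n) i
      rw [hlen n] at hi ⊢
      rcases (Nat.lt_succ_iff.1 hi).lt_or_eq with h | h
      · rw [Function.update_of_ne h.ne, hval n i h]
      · rw [h, Function.update_self]
    obtain ⟨V, ⟨n, rfl⟩, hV⟩ := hom.2.2.2 {(⟨y, fun i hi => (hi (hy i)).elim⟩ : Tr C I)}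
      (finite_singleton _)
    exact hb n (hV rfl)

end Pool.Agent.Q209.PG
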