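import Pool.Agent.Q209.PG.Game
import Pool.Agent.Q209.PG.Base

/-!
# The selection principle
-/

set_option autoImplicit false

namespace Pool.Agent.Q209.PG

open Set Topology Filter

variable {Ω : Type} [LinearOrder Ω]

theorem exists_gamma [Nonempty Ω] (hb : ∀ f : ℕ → Ω, ∃ b, ∀ n, f n < b) {E : Ω → Set Ω}
    (hE : ∀ δ, (E δ).Finite) : ∃ γ : Ω, ∀ η, γ ≤ η → ∃ δ, η < δ ∧ ∀ β ∈ E δ, ¬ (γ < β ∧ β ≤ η) := by
  by_contra hcon
  push Not at hcon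
  choose h h1 h2 using hcon
  let g : ℕ → Ω := fun n => Nat.rec (Classical.arbitrary Ω) (fun _ x => h x) n
  have hg : ∀ n, g (n + 1) = h (g n) := fun n => rfl
  obtain ⟨δ, hδ⟩ := hb g
  have h3 : ∀ n, ∃ β ∈ E δ, g n < β ∧ β ≤ g (n + 1) := fun n => h2 (g n) δ (hδ (n + 1))
  choose β hβ1 hβ2 hβ3 using h3
  have hmono : StrictMono β := strictMono_nat_of_lt_succ fun n =>
    (hβ3 n).trans_lt (hβ2 (n + 1))
  exact Set.infinite_of_injective_forall_mem hmono.injective hβ1 (hE δ)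

theorem pt_inj {q q' : Ω × ℕ} (h : pt q = pt q') : q = q' := by
  have h1 : ({q} : Set (Ω × ℕ)) ∈ (pt q).1 := mem_pt.2 rfl
  rw [h, mem_pt] at h1
  exact h1.symm

variable [Nonempty Ω]

/-- a point of `Bs Ω` is in all but finitely many of the open sets -/
theorem finite_not_mem {δ γ : ℕ → Ω} {k l : ℕ → ℕ} {G : ℕ → Set (Bs Ω)}
    (hCG : ∀ n, CC (δ n) (k n) ⊆ G n)
    (hG : ∀ n, ∀ p : Bdd Ω, ul p ∉ G n →
      {q : Ω × ℕ | δ n < q.1 ∧ (q.1 ≤ γ n ∨ (k n ≤ q.2 ∧ q.2 < l n))} ∈ p.1)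
    (hδ : StrictMono δ) (hk : StrictMono k) (hγ : ∀ n, γ n < δ (n + 1))
    (hl : ∀ n, l n ≤ k (n + 1)) (c : Bs Ω) : {n | c ∉ G n}.Finite := by
  by_contra hinf
  have hinf : {n | c ∉ G n}.Infinite := hinf
  rcases c with p | o
  · obtain ⟨n, hn⟩ := hinf.nonempty
    obtain ⟨m, hm, hnm⟩ := hinf.exists_gt n
    obtain ⟨r, hr, hmr⟩ := hinf.exists_gt m
    obtain ⟨q, ⟨hq1, hq2⟩, hq3⟩ := p.1.nonempty_of_mem
      (inter_mem (inter_mem (hG n p hn) (hG m p hm)) (hG r p hr))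
    have e1 : γ n < q.1 := (hγ n).trans ((hδ.monotone (by omega : n + 1 ≤ r)).trans_lt hq3.1)
    have e2 : γ m < q.1 := (hγ m).trans_le ((hδ.monotone (by omega : m + 1 ≤ r)).trans hq3.1.le)
    have e3 := hq1.2.resolve_left (not_le.2 e1)
    have e4 := hq2.2.resolve_left (not_le.2 e2)
    have e5 : k (n + 1) ≤ k m := hk.monotone (by omega : n + 1 ≤ m)
    have e6 := hl n
    omega
  · cases o with
    | none =>
      obtain ⟨n, hn⟩ := hinf.nonempty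
      exact hn (hCG n (Or.inr ⟨none, Or.inl rfl, rfl⟩))
    | some j =>
      obtain ⟨n, hn, hjn⟩ := hinf.exists_gt j
      refine hn (hCG n (Or.inr ⟨some j, Or.inr ⟨j, ?_, rfl⟩, rfl⟩))
      exact hjn.trans_le (hk.id_le n)

theorem select (hb : ∀ f : ℕ → Ω, ∃ b, ∀ n, f n < b)
    {𝒰 : ℕ → Set (Set (Tr (Bs Ω) (II Ω)))} (h𝒰 : ∀ n, IsKCover (𝒰 n)) :
    ∃ V : ℕ → Set (Tr (Bs Ω) (II Ω)), (∀ n, V n ∈ 𝒰 n) ∧ ∀ x, {n | x ∉ V n}.Finite := by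
  classical
  -- the choices of the members
  have hU : ∀ n δ k, ∃ U ∈ 𝒰 n, KK (II Ω) (CC δ k) ⊆ U := by
    intro n δ k
    refine (h𝒰 n).2.2.2 _ ⟨ext (fun _ => lv none) 0 (fun i hi => absurd hi (Nat.not_lt_zero i))
      (lv none), fun i => ?_⟩ (isCompact_KK (isCompact_CC δ k) isOpen_II)
    rw [ext_ge (Nat.zero_le i)]
    exact Or.inr ⟨none, Or.inl rfl, rfl⟩
  choose U hUmem hKU using hU
  have hF : ∀ n δ k, ∃ F : Set (Bs Ω), F.Finite ∧ F ⊆ II Ω ∩ CC δ k ∧ ∃ G : Set (Bs Ω), IsOpen G ∧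
      CC δ k ⊆ G ∧ ∀ x : Tr (Bs Ω) (II Ω), x ∉ U n δ k → ∃ i, (∀ j < i, x.1 j ∈ F) ∧ x.1 i ∉ G :=
    fun n δ k => nbhd_KK (isCompact_CC δ k) isOpen_II ((h𝒰 n).1 _ (hUmem n δ k)) (hKU n δ k)
  choose F hFfin hFsub G hGopen hCG hexit using hF
  have hγ : ∀ n δ k, ∃ (γ : Ω) (l : ℕ), ∀ p : Bdd Ω, ul p ∉ G n δ k →
      {q : Ω × ℕ | δ < q.1 ∧ (q.1 ≤ γ ∨ (k ≤ q.2 ∧ q.2 < l))} ∈ p.1 :=
    fun n δ k => nbhd_CC (hGopen n δ k) (hCG n δ k)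
  choose γ l hγl using hγ
  -- the first coordinates of the entries
  let E : ℕ → ℕ → Ω → Set Ω := fun n k δ => {β | ∃ j, ul (pt (β, j)) ∈ F n δ k}
  have hE : ∀ n k δ, (E n k δ).Finite := by
    intro n k δ
    have h1 : ((fun q : Ω × ℕ => (ul (pt q) : Bs Ω)) ⁻¹' F n δ k).Finite := by
      refine (hFfin n δ k).preimage ?_
      intro q _ q' _ h
      exact pt_inj (Sum.inl.inj h)
    refine (h1.image Prod.fst).subset ?_
    rintro β ⟨j, hj⟩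
    exact ⟨(β, j), hj, rfl⟩
  have hgam : ∀ n k, ∃ g : Ω, ∀ η, g ≤ η → ∃ δ, η < δ ∧ ∀ β ∈ E n k δ, ¬ (g < β ∧ β ≤ η) :=
    fun n k => exists_gamma hb (hE n k)
  choose g hg using hgam
  obtain ⟨γ₀, hγ₀⟩ := hb fun m => g m.unpair.1 m.unpair.2
  have hg0 : ∀ n k, g n k ≤ γ₀ := fun n k => by
    have := hγ₀ (Nat.pair n k)
    rw [Nat.unpair_pair] at this
    exact this.le
  -- the recursion
  have hstep : ∀ (n : ℕ) (s : Ω × ℕ), ∃ s' : Ω × ℕ, γ₀ ≤ s.1 →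
      (s'.2 = max (l n s.1 s.2) (s.2 + 1) ∧ max s.1 (γ n s.1 s.2) < s'.1 ∧
        ∀ β ∈ E (n + 1) s'.2 s'.1, ¬ (γ₀ < β ∧ β ≤ max s.1 (γ n s.1 s.2))) := by
    intro n s
    by_cases hs : γ₀ ≤ s.1
    · obtain ⟨δ, h1, h2⟩ := hg (n + 1) (max (l n s.1 s.2) (s.2 + 1)) (max s.1 (γ n s.1 s.2))
        ((hg0 _ _).trans (hs.trans (le_max_left _ _)))
      exact ⟨(δ, max (l n s.1 s.2) (s.2 + 1)), fun _ => ⟨rfl, h1, fun β hβ h =>
        h2 β hβ ⟨(hg0 _ _).trans_lt h.1, h.2⟩⟩⟩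
    · exact ⟨s, fun h => (hs h).elim⟩
  choose nx hnx using hstep
  let s : ℕ → Ω × ℕ := fun n => Nat.rec (γ₀, 0) (fun n x => nx n x) n
  have hs0 : ∀ n, γ₀ ≤ (s n).1 := by
    intro n
    induction n with
    | zero => exact le_rfl
    | succ n ih => exact ih.trans ((le_max_left _ _).trans (hnx n (s n) ih).2.1.le)
  have hs : ∀ n, (s (n + 1)).2 = max (l n (s n).1 (s n).2) ((s n).2 + 1) ∧
      max (s n).1 (γ n (s n).1 (s n).2) < (s (n + 1)).1 ∧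
        ∀ β ∈ E (n + 1) (s (n + 1)).2 (s (n + 1)).1,
          ¬ (γ₀ < β ∧ β ≤ max (s n).1 (γ n (s n).1 (s n).2)) := fun n => hnx n (s n) (hs0 n)
  have hδmono : StrictMono fun n => (s n).1 :=
    strictMono_nat_of_lt_succ fun n => (le_max_left _ _).trans_lt (hs n).2.1
  have hkmono : StrictMono fun n => (s n).2 := strictMono_nat_of_lt_succ fun n => by
    show (s n).2 < (s (n + 1)).2
    rw [(hs n).1]
    exact (Nat.lt_succ_self _).trans_le (le_max_right _ _)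
  have hpoint : ∀ c : Bs Ω, {n | c ∉ G n (s n).1 (s n).2}.Finite :=
    finite_not_mem (δ := fun n => (s n).1) (γ := fun n => γ n (s n).1 (s n).2)
      (k := fun n => (s n).2) (l := fun n => l n (s n).1 (s n).2)
      (G := fun n => G n (s n).1 (s n).2) (fun n => hCG _ _ _) (fun n => hγl _ _ _) hδmono hkmono
      (fun n => (le_max_right _ _).trans_lt (hs n).2.1)
      (fun n => by
        show l n (s n).1 (s n).2 ≤ (s (n + 1)).2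
        rw [(hs n).1]
        exact le_max_left _ _)
  refine ⟨fun n => U n (s n).1 (s n).2, fun n => hUmem _ _ _, fun x => ?_⟩
  by_contra hinf
  have hN : {n | x ∉ U n (s n).1 (s n).2}.Infinite := hinf
  have hi : ∀ n, ∃ i, x ∉ U n (s n).1 (s n).2 → (∀ j < i, x.1 j ∈ F n (s n).1 (s n).2) ∧
      x.1 i ∉ G n (s n).1 (s n).2 := by
    intro n
    by_cases h : x ∉ U n (s n).1 (s n).2
    · obtain ⟨i, hi⟩ := hexit _ _ _ x h
      exact ⟨i, fun _ => hi⟩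
    · exact ⟨0, fun h' => (h h').elim⟩
  choose i hi using hi
  -- the indices of exit are unbounded
  have hunb : ∀ M, ∀ n, ∃ m ∈ {n | x ∉ U n (s n).1 (s n).2}, n < m ∧ M < i m := by
    intro M n
    have hfin : {m | x ∉ U m (s m).1 (s m).2 ∧ i m ≤ M}.Finite := by
      refine (Set.Finite.biUnion (Set.finite_Iic M) fun r _ => hpoint (x.1 r)).subset ?_
      rintro m ⟨hm, hmM⟩
      exact mem_biUnion (show i m ∈ Iic M from hmM) (hi m hm).2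
    obtain ⟨m, ⟨hm, hm'⟩, hnm⟩ := (hN.sdiff hfin).exists_gt n
    exact ⟨m, hm, hnm, by
      by_contra h
      exact hm' ⟨hm, not_lt.1 h⟩⟩
  obtain ⟨n₁, hn₁, -, -⟩ := hunb 0 0
  obtain ⟨n₂, hn₂, h12, hi12⟩ := hunb (i n₁) n₁
  obtain ⟨n₃, hn₃, h23, hi23⟩ := hunb (i n₂) n₂
  have e2 := (hi n₂ hn₂).1 _ hi12
  have e3 := (hi n₃ hn₃).1 _ (hi12.trans hi23)
  have e1 : x.1 (i n₁) ∉ CC (s n₁).1 (s n₁).2 := fun h => (hi n₁ hn₁).2 (hCG _ _ _ h)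
  obtain ⟨⟨q, hq⟩, e2'⟩ := hFsub _ _ _ e2
  rw [← hq] at e1 e2' e3
  have f1 : (s n₁).1 < q.1 := not_le.1 fun h => e1 (pt_mem_CC.2 h)
  have f2 : q.1 ≤ (s n₂).1 := pt_mem_CC.1 e2'
  obtain ⟨r, rfl⟩ : ∃ r, n₃ = r + 1 := ⟨n₃ - 1, by omega⟩
  refine (hs r).2.2 q.1 ⟨q.2, e3⟩ ⟨(hs0 n₁).trans_lt f1, f2.trans ?_⟩
  exact (hδmono.monotone (by omega : n₂ ≤ r)).trans (le_max_left _ _)

/-- One has no winning predetermined strategy. -/
theorem not_oneWinsPre (hb : ∀ f : ℕ → Ω, ∃ b, ∀ n, f n < b) :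
    ¬ OneWinsPre (Tr (Bs Ω) (II Ω)) := by
  rintro ⟨𝒰, h𝒰, hwin⟩
  obtain ⟨V, hV, hfin⟩ := select hb h𝒰
  have hcov : ∀ F : Set (Tr (Bs Ω) (II Ω)), F.Finite → ∃ U ∈ range V, F ⊆ U := by
    intro F hF
    have h1 : (⋃ x ∈ F, {n | x ∉ V n}).Finite := hF.biUnion fun x _ => hfin x
    obtain ⟨n, hn⟩ := h1.exists_notMem
    refine ⟨V n, ⟨n, rfl⟩, fun x hx => ?_⟩
    by_contra h
    exact hn (mem_biUnion hx h)
  refine hwin V hV ⟨?_, ?_, ?_, hcov⟩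
  · rintro _ ⟨n, rfl⟩
    exact (h𝒰 n).1 _ (hV n)
  · refine eq_univ_of_forall fun x => ?_
    obtain ⟨U, hU, hx⟩ := hcov {x} (finite_singleton x)
    exact ⟨U, hU, hx rfl⟩
  · rintro ⟨n, hn⟩
    exact (h𝒰 n).2.2.1 (hn ▸ hV n)

theorem oneWins_tr (hb : ∀ f : ℕ → Ω, ∃ b, ∀ n, f n < b) : OneWins (Tr (Bs Ω) (II Ω)) := by
  obtain ⟨α⟩ := ‹Nonempty Ω›
  refine oneWins ⟨ul (pt (α, 0)), (α, 0), rfl⟩ fun K hK => not_compact (fun β => ?_) hK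
  obtain ⟨b, hb'⟩ := hb fun _ => β
  exact ⟨b, hb' 0⟩

end Pool.Agent.Q209.PG
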