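import Mathlib

/-!
# Tree spaces over a space with isolated points

`Tr C I`: sequences in `C` which are constant after the first entry outside of `I`.
-/

set_option autoImplicit false

namespace Pool.Agent.Q209.PG

open Set Topology Filter

/-- Sequences in `C` which stop at the first entry outside of `I`. -/
def Tr (C : Type) (I : Set C) : Type := {x : ℕ → C // ∀ i, x i ∉ I → x (i + 1) = x i}

variable {C : Type} {I : Set C}

/-- The basic set given by the first `n` entries of `a` and the set `V`. -/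
def bas (I : Set C) (a : ℕ → C) (n : ℕ) (V : Set C) : Set (Tr C I) :=
  {x | (∀ i < n, x.1 i = a i) ∧ x.1 n ∈ V}

/-- The sequences which extend the first `n` entries of `a`. -/
def cyl (I : Set C) (a : ℕ → C) (n : ℕ) : Set (Tr C I) := {x | ∀ i < n, x.1 i = a i}

variable [TopologicalSpace C]

instance : TopologicalSpace (Tr C I) where
  IsOpen U := ∀ x ∈ U, ∃ (n : ℕ) (V : Set C), IsOpen V ∧ (∀ i < n, x.1 i ∈ I) ∧ x.1 n ∈ V ∧
    bas I x.1 n V ⊆ U
  isOpen_univ := fun x _ => ⟨0, univ, isOpen_univ, by simp, trivial, subset_univ _⟩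
  isOpen_inter U U' hU hU' := by
    rintro x ⟨hx, hx'⟩
    obtain ⟨n, V, hV, hI, hxV, hb⟩ := hU x hx
    obtain ⟨n', V', hV', hI', hxV', hb'⟩ := hU' x hx'
    rcases lt_trichotomy n n' with h | h | h
    · refine ⟨n', V', hV', hI', hxV', subset_inter (fun z hz => hb ⟨fun i hi =>
        hz.1 i (hi.trans h), ?_⟩) hb'⟩
      rw [hz.1 n h]
      exact hxV
    · subst h
      exact ⟨n, V ∩ V', hV.inter hV', hI, ⟨hxV, hxV'⟩, subset_inter
        (fun z hz => hb ⟨hz.1, hz.2.1⟩) (fun z hz => hb' ⟨hz.1, hz.2.2⟩)⟩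
    · refine ⟨n, V, hV, hI, hxV, subset_inter hb (fun z hz => hb' ⟨fun i hi =>
        hz.1 i (hi.trans h), ?_⟩)⟩
      rw [hz.1 n' h]
      exact hxV'
  isOpen_sUnion 𝒰 h𝒰 := by
    rintro x ⟨U, hU, hx⟩
    obtain ⟨n, V, hV, hI, hxV, hb⟩ := h𝒰 U hU x hx
    exact ⟨n, V, hV, hI, hxV, hb.trans (subset_sUnion_of_mem hU)⟩

theorem isOpen_tr {U : Set (Tr C I)} : IsOpen U ↔ ∀ x ∈ U, ∃ (n : ℕ) (V : Set C), IsOpen V ∧
    (∀ i < n, x.1 i ∈ I) ∧ x.1 n ∈ V ∧ bas I x.1 n V ⊆ U := Iff.rfl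

theorem isOpen_bas {a : ℕ → C} {n : ℕ} {V : Set C} (ha : ∀ i < n, a i ∈ I) (hV : IsOpen V) :
    IsOpen (bas I a n V) := by
  rw [isOpen_tr]
  intro x hx
  refine ⟨n, V, hV, fun i hi => ?_, hx.2, fun z hz => ⟨fun i hi => ?_, hz.2⟩⟩
  · rw [hx.1 i hi]
    exact ha i hi
  · rw [hz.1 i hi, hx.1 i hi]

omit [TopologicalSpace C] in
theorem tr_const (x : Tr C I) {i : ℕ} (hi : x.1 i ∉ I) : ∀ j, i ≤ j → x.1 j = x.1 i := by
  intro j hj
  induction j, hj using Nat.le_induction with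
  | base => rfl
  | succ j hj ih =>
    rw [x.2 j (by rw [ih]; exact hi), ih]

omit [TopologicalSpace C] in
theorem tr_mem_of_lt (x : Tr C I) {i j : ℕ} (hij : i ≤ j) (hj : x.1 j ∈ I) : x.1 i ∈ I := by
  by_contra h
  rw [tr_const x h j hij] at hj
  exact h hj

omit [TopologicalSpace C] in
/-- at the first difference of two points the entries before it are in `I` -/
theorem first_diff {x y : Tr C I} (hxy : x ≠ y) : ∃ n, (∀ i < n, x.1 i = y.1 i) ∧
    (∀ i < n, x.1 i ∈ I) ∧ x.1 n ≠ y.1 n := by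
  classical
  have h : ∃ n, x.1 n ≠ y.1 n := by
    by_contra h
    push Not at h
    exact hxy (Subtype.ext (funext h))
  have hmin : ∀ i < Nat.find h, x.1 i = y.1 i := fun i hi => by
    by_contra h'
    exact Nat.find_min h hi h'
  refine ⟨Nat.find h, hmin, fun i hi => ?_, Nat.find_spec h⟩
  by_contra hI
  apply Nat.find_spec h
  rw [tr_const x hI _ hi.le, tr_const y (by rw [← hmin i hi]; exact hI) _ hi.le, hmin i hi]

instance [T2Space C] : T2Space (Tr C I) := by
  refine ⟨fun x y hxy => ?_⟩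
  obtain ⟨n, h1, h2, h3⟩ := first_diff hxy
  obtain ⟨V, W, hV, hW, hxV, hyW, hd⟩ := t2_separation h3
  refine ⟨bas I x.1 n V, bas I x.1 n W, isOpen_bas h2 hV, isOpen_bas h2 hW, ⟨fun _ _ => rfl, hxV⟩,
    ⟨fun i hi => (h1 i hi).symm, hyW⟩, ?_⟩
  rw [Set.disjoint_left]
  intro z hz hz'
  exact Set.disjoint_left.1 hd hz.2 hz'.2

/-- cylinders over sequences in `I` are closed -/
theorem isClosed_cyl [T1Space C] {a : ℕ → C} {n : ℕ} (ha : ∀ i < n, a i ∈ I) :
    IsClosed (cyl I a n) := by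
  classical
  rw [← isOpen_compl_iff, isOpen_tr]
  intro x hx
  have h : ∃ i, i < n ∧ x.1 i ≠ a i := by
    by_contra h
    push Not at h
    exact hx h
  obtain ⟨hlt, hne⟩ := Nat.find_spec h
  have hmin : ∀ j < Nat.find h, x.1 j = a j := fun j hj => by
    by_contra h'
    exact Nat.find_min h hj ⟨hj.trans hlt, h'⟩
  refine ⟨Nat.find h, {a (Nat.find h)}ᶜ, isOpen_compl_singleton, fun i hi => ?_, hne, ?_⟩
  · rw [hmin i hi]
    exact ha i (hi.trans hlt)
  · intro z hz hz'
    exact hz.2 (hz' _ hlt)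

/-- the trace of a compact set on the children of a node is compact -/
theorem isCompact_children [T1Space C] {K : Set (Tr C I)} (hK : IsCompact K) {a : ℕ → C} {n : ℕ}
    (ha : ∀ i < n, a i ∈ I) : IsCompact ((fun x : Tr C I => x.1 n) '' (K ∩ cyl I a n)) := by
  refine (hK.inter_right (isClosed_cyl ha)).image_of_continuousOn ?_
  rw [continuousOn_iff]
  intro x hx V hV hxV
  refine ⟨bas I a n V, isOpen_bas ha hV, ⟨hx.2, hxV⟩, ?_⟩
  rintro z ⟨hz, -⟩
  exact hz.2

/-- `K C₀`: all entries in `C₀` -/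
def KK (I C₀ : Set C) : Set (Tr C I) := {x | ∀ i, x.1 i ∈ C₀}

/-- the point with the first `n` entries of `a` and the entry `c` from there on -/
def ext (a : ℕ → C) (n : ℕ) (ha : ∀ i < n, a i ∈ I) (c : C) : Tr C I :=
  ⟨fun i => if i < n then a i else c, fun i hi => by
    by_cases h : i < n
    · simp only [h, if_true] at hi
      exact (hi (ha i h)).elim
    · have h' : ¬ i + 1 < n := fun h'' => h (by omega)
      simp only [h, h', if_false]⟩

omit [TopologicalSpace C] in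
theorem ext_lt {a : ℕ → C} {n : ℕ} {ha : ∀ i < n, a i ∈ I} {c : C} {i : ℕ} (hi : i < n) :
    (ext a n ha c).1 i = a i := if_pos hi

omit [TopologicalSpace C] in
theorem ext_ge {a : ℕ → C} {n : ℕ} {ha : ∀ i < n, a i ∈ I} {c : C} {i : ℕ} (hi : n ≤ i) :
    (ext a n ha c).1 i = c := if_neg (not_lt.2 hi)

theorem isCompact_KK {C₀ : Set C} (hC₀ : IsCompact C₀) (hI : ∀ y ∈ I, IsOpen ({y} : Set C)) :
    IsCompact (KK I C₀) := by
  classical
  rw [isCompact_iff_ultrafilter_le_nhds]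
  intro u hu
  rw [le_principal_iff] at hu
  have h1 : ∀ n, ∃ c ∈ C₀, (u.map (fun x : Tr C I => x.1 n) : Filter C) ≤ 𝓝 c := by
    intro n
    refine isCompact_iff_ultrafilter_le_nhds.1 hC₀ (u.map (fun x : Tr C I => x.1 n)) ?_
    rw [le_principal_iff]
    show (fun x : Tr C I => x.1 n) ⁻¹' C₀ ∈ u
    exact mem_of_superset hu (fun x (hx : ∀ i, x.1 i ∈ C₀) => hx n)
  choose f hf hlim using h1
  have hop : ∀ n (V : Set C), IsOpen V → f n ∈ V → {x : Tr C I | x.1 n ∈ V} ∈ u := by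
    intro n V hV hfV
    exact hlim n (hV.mem_nhds hfV)
  have hiso : ∀ n, f n ∈ I → {x : Tr C I | x.1 n = f n} ∈ u := fun n hn =>
    hop n {f n} (hI _ hn) rfl
  have hpre : ∀ n, (∀ i < n, f i ∈ I) → {x : Tr C I | ∀ i < n, x.1 i = f i} ∈ u := by
    intro n hn
    have : {x : Tr C I | ∀ i < n, x.1 i = f i} = ⋂ i ∈ Iio n, {x : Tr C I | x.1 i = f i} := by
      ext x
      simp
    rw [this]
    exact (biInter_mem (Set.finite_Iio n)).2 fun i hi => hiso i (hn i hi)
  by_cases hall : ∀ n, f n ∈ I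
  · let z₀ : Tr C I := ⟨f, fun i hi => (hi (hall i)).elim⟩
    refine ⟨z₀, fun i => hf i, ?_⟩
    rw [le_nhds_iff]
    intro U hxU hU
    obtain ⟨n, V, hV, -, hxV, hb⟩ := isOpen_tr.1 hU _ hxU
    refine mem_of_superset (inter_mem (hpre n fun i _ => hall i) (hop n V hV hxV)) ?_
    rintro z ⟨hz1, hz2⟩
    exact hb ⟨hz1, hz2⟩
  · push Not at hall
    have hlt : ∀ i < Nat.find hall, f i ∈ I := fun i hi => by
      by_contra h'
      exact Nat.find_min hall hi h'
    set n₀ := Nat.find hall with hn₀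
    have hn₀I : f n₀ ∉ I := Nat.find_spec hall
    refine ⟨ext f n₀ hlt (f n₀), fun i => ?_, ?_⟩
    · rcases lt_or_ge i n₀ with h | h
      · rw [ext_lt h]
        exact hf i
      · rw [ext_ge h]
        exact hf n₀
    · rw [le_nhds_iff]
      intro U hxU hU
      obtain ⟨n, V, hV, hnI, hxV, hb⟩ := isOpen_tr.1 hU _ hxU
      have hn : n ≤ n₀ := by
        by_contra h
        push Not at h
        have := hnI n₀ h
        rw [ext_ge le_rfl] at this
        exact hn₀I this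
      have hfn : (ext f n₀ hlt (f n₀)).1 n = f n := by
        rcases hn.lt_or_eq with h | h
        · rw [ext_lt h]
        · rw [ext_ge h.ge, h]
      rw [hfn] at hxV
      refine mem_of_superset (inter_mem (hpre n fun i hi => hlt i (hi.trans_le hn))
        (hop n V hV hxV)) ?_
      rintro z ⟨hz1, hz2⟩
      refine hb ⟨fun i hi => ?_, hz2⟩
      rw [hz1 i hi, ext_lt (hi.trans_le hn)]

end Pool.Agent.Q209.PG
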