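import Pool.Agent.Q209.PG.Tree

/-!
# Neighbourhoods of the compact sets of a tree space; the strategy of One
-/

set_option autoImplicit false

namespace Pool.Agent.Q209.PG

open Set Topology Filter

variable {C : Type} {I : Set C} [TopologicalSpace C]

/-- Neighbourhoods of `KK I C₀`: a point outside of the open set `U` leaves `C₀` (even `G`) at some
index, and its entries before this index are in a finite set. -/
theorem nbhd_KK {C₀ : Set C} (hC₀ : IsCompact C₀) (hI : ∀ y ∈ I, IsOpen ({y} : Set C))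
    {U : Set (Tr C I)} (hU : IsOpen U) (hKU : KK I C₀ ⊆ U) :
    ∃ F : Set C, F.Finite ∧ F ⊆ I ∩ C₀ ∧ ∃ G : Set C, IsOpen G ∧ C₀ ⊆ G ∧
      ∀ x : Tr C I, x ∉ U → ∃ i, (∀ j < i, x.1 j ∈ F) ∧ x.1 i ∉ G := by
  classical
  rcases C₀.eq_empty_or_nonempty with he | ⟨c₀, hc₀⟩
  · exact ⟨∅, finite_empty, empty_subset _, ∅, isOpen_empty, by rw [he], fun x _ =>
      ⟨0, by simp, by simp⟩⟩
  have hK := isCompact_KK (I := I) hC₀ hI
  have h1 : ∀ z : Tr C I, ∃ (n : ℕ) (V : Set C), IsOpen V ∧ (z ∈ KK I C₀ → (∀ i < n, z.1 i ∈ I) ∧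
      z.1 n ∈ V ∧ bas I z.1 n V ⊆ U) := by
    intro z
    by_cases hz : z ∈ KK I C₀
    · obtain ⟨n, V, hV, h⟩ := isOpen_tr.1 hU z (hKU hz)
      exact ⟨n, V, hV, fun _ => h⟩
    · exact ⟨0, ∅, isOpen_empty, fun h => (hz h).elim⟩
  choose n V hV hnV using h1
  obtain ⟨t, htK, ht⟩ := hK.elim_nhds_subcover (fun z => if z ∈ KK I C₀ then bas I z.1 (n z) (V z)
    else univ) (fun z hz => by
      simp only [hz, if_true]
      exact (isOpen_bas (hnV z hz).1 (hV z)).mem_nhds ⟨fun _ _ => rfl, (hnV z hz).2.1⟩)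
  have hcov : ∀ w ∈ KK I C₀, ∃ z ∈ t, w ∈ bas I z.1 (n z) (V z) := by
    intro w hw
    obtain ⟨z, hz, hwz⟩ := mem_iUnion₂.1 (ht hw)
    refine ⟨z, hz, ?_⟩
    simpa only [htK z hz, if_true] using hwz
  have hIz : ∀ z ∈ t, ∀ i < n z, z.1 i ∈ I := fun z hz => (hnV z (htK z hz)).1
  have hUz : ∀ z ∈ t, bas I z.1 (n z) (V z) ⊆ U := fun z hz => (hnV z (htK z hz)).2.2
  -- the finite set of entries
  let F : Set C := ⋃ z ∈ t, (fun i => z.1 i) '' Iio (n z)
  have hFfin : F.Finite := t.finite_toSet.biUnion fun z _ => (Set.finite_Iio (n z)).image _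
  -- the neighbourhoods at the nodes
  let Gn : Tr C I → ℕ → Set C := fun z i => {c | (∃ z' ∈ t, n z' = i ∧ (∀ j < i, z'.1 j = z.1 j) ∧
    c ∈ V z') ∨ ∃ z' ∈ t, i < n z' ∧ (∀ j < i, z'.1 j = z.1 j) ∧ c = z'.1 i}
  have hGnopen : ∀ z i, IsOpen (Gn z i) := by
    intro z i
    have : Gn z i = (⋃ z' ∈ {z' | z' ∈ t ∧ n z' = i ∧ ∀ j < i, z'.1 j = z.1 j}, V z') ∪
        ⋃ z' ∈ {z' | z' ∈ t ∧ i < n z' ∧ ∀ j < i, z'.1 j = z.1 j}, {z'.1 i} := by
      ext c
      simp only [Gn, mem_ofPred_eq, mem_union, mem_iUnion, mem_singleton_iff, exists_prop]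
      constructor
      · rintro (⟨z', h1, h2, h3, h4⟩ | ⟨z', h1, h2, h3, h4⟩)
        · exact Or.inl ⟨z', ⟨h1, h2, h3⟩, h4⟩
        · exact Or.inr ⟨z', ⟨h1, h2, h3⟩, h4⟩
      · rintro (⟨z', ⟨h1, h2, h3⟩, h4⟩ | ⟨z', ⟨h1, h2, h3⟩, h4⟩)
        · exact Or.inl ⟨z', h1, h2, h3, h4⟩
        · exact Or.inr ⟨z', h1, h2, h3, h4⟩
    rw [this]
    refine (isOpen_biUnion fun z' _ => hV z').union (isOpen_biUnion fun z' hz' => ?_)
    exact hI _ (hIz z' hz'.1 i hz'.2.1)
  let J : Set (Tr C I × ℕ) := {q | q.1 ∈ t ∧ q.2 ≤ n q.1 ∧ C₀ ⊆ Gn q.1 q.2}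
  have hJ : J.Finite := by
    refine (t.finite_toSet.biUnion (t := fun z => (fun i => (z, i)) '' Iic (n z))
      fun z _ => (Set.finite_Iic (n z)).image _).subset ?_
    rintro ⟨z, i⟩ ⟨h1, h2, -⟩
    exact mem_biUnion h1 ⟨i, h2, rfl⟩
  refine ⟨F, hFfin, ?_, ⋂ q ∈ J, Gn q.1 q.2, hJ.isOpen_biInter fun q _ => hGnopen _ _,
    subset_iInter₂ fun q hq => hq.2.2, ?_⟩
  · rintro c hc
    obtain ⟨z, hz, i, hi, rfl⟩ := mem_iUnion₂.1 hc
    exact ⟨hIz z hz i hi, htK z hz i⟩
  intro x hx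
  -- the exit index
  have hex : ∃ i, x.1 i ∉ C₀ := by
    by_contra h
    push Not at h
    exact hx (hKU h)
  set i := Nat.find hex with hi
  have hiC : x.1 i ∉ C₀ := Nat.find_spec hex
  have hlt : ∀ j < i, x.1 j ∈ C₀ := fun j hj => by
    by_contra h'
    exact Nat.find_min hex hj h'
  have hltI : ∀ j < i, x.1 j ∈ I := fun j hj => by
    by_contra h'
    apply hiC
    rw [tr_const x h' i hj.le]
    exact hlt j hj
  -- some point of `t` has the same entries up to `i`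
  have key : ∃ z ∈ t, i ≤ n z ∧ ∀ j < i, z.1 j = x.1 j := by
    -- a point of the compact set with the first `i` entries of `x`
    have hlast : ∃ w : Tr C I, w ∈ KK I C₀ ∧ (∀ j < i, w.1 j = x.1 j) := by
      refine ⟨ext x.1 i hltI c₀, fun j => ?_, fun j hj => ext_lt hj⟩
      rcases lt_or_ge j i with h | h
      · rw [ext_lt h]
        exact hlt j h
      · rw [ext_ge h]
        exact hc₀
    obtain ⟨w, hwK, hw⟩ := hlast
    obtain ⟨z, hz, hwz⟩ := hcov w hwK
    refine ⟨z, hz, ?_, ?_⟩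
    · by_contra hlt'
      push Not at hlt'
      apply hx
      refine hUz z hz ⟨fun j hj => ?_, ?_⟩
      · rw [← hw j (hj.trans hlt')]
        exact hwz.1 j hj
      · rw [← hw _ hlt']
        exact hwz.2
    · intro j hj
      by_cases hjn : j < n z
      · rw [← hwz.1 j hjn, hw j hj]
      · exfalso
        push Not at hjn
        have hlt' : n z < i := lt_of_le_of_lt hjn hj
        apply hx
        refine hUz z hz ⟨fun j hj => ?_, ?_⟩
        · rw [← hw j (hj.trans hlt')]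
          exact hwz.1 j hj
        · rw [← hw _ hlt']
          exact hwz.2
  obtain ⟨z, hz, hiz, hzx⟩ := key
  refine ⟨i, fun j hj => ?_, fun hG => ?_⟩
  · exact mem_biUnion hz ⟨j, lt_of_lt_of_le hj hiz, hzx j hj⟩
  · have hJz : (z, i) ∈ J := by
      refine ⟨hz, hiz, fun c hc => ?_⟩
      have hwK : ext z.1 i (fun j hj => hIz z hz j (lt_of_lt_of_le hj hiz)) c ∈ KK I C₀ := by
        intro j
        rcases lt_or_ge j i with h | h
        · rw [ext_lt h]
          exact htK z hz j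
        · rw [ext_ge h]
          exact hc
      obtain ⟨z', hz', hw1, hw2⟩ := hcov _ hwK
      rcases lt_trichotomy (n z') i with h | h | h
      · exfalso
        apply hx
        refine hUz z' hz' ⟨fun j hj => ?_, ?_⟩
        · rw [← hw1 j hj, ext_lt (hj.trans h), hzx j (hj.trans h)]
        · rw [ext_lt h, hzx _ h] at hw2
          exact hw2
      · left
        refine ⟨z', hz', h, fun j hj => ?_, ?_⟩
        · rw [← hw1 j (by omega), ext_lt hj]
        · rw [ext_ge h.ge] at hw2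
          exact hw2
      · right
        refine ⟨z', hz', h, fun j hj => ?_, ?_⟩
        · rw [← hw1 j (hj.trans h), ext_lt hj]
        · rw [← hw1 i h, ext_ge le_rfl]
    rcases mem_iInter₂.1 hG (z, i) hJz with ⟨z', hz', h1, h2, h3⟩ | ⟨z', hz', h1, h2, h3⟩
    · apply hx
      refine hUz z' hz' ⟨fun j hj => ?_, ?_⟩
      · rw [h2 j (by omega), hzx j (by omega)]
      · rw [h1]
        exact h3
    · apply hiC
      rw [h3]
      exact htK z' hz' i

/-- the cone of the children `y` of a node is closed -/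
theorem isOpen_cyl_compl [T1Space C] {a : ℕ → C} {n : ℕ} (ha : ∀ i < n, a i ∈ I) :
    IsOpen (cyl I a n)ᶜ := (isClosed_cyl ha).isOpen_compl

/-- One's moves: every compact set misses a child of the node. -/
theorem exists_child [T1Space C] (hIK : ∀ K : Set C, IsCompact K → ¬ I ⊆ K) {K : Set (Tr C I)}
    (hK : IsCompact K) {a : ℕ → C} {n : ℕ} (ha : ∀ i < n, a i ∈ I) :
    ∃ y ∈ I, K ⊆ (cyl I (Function.update a n y) (n + 1))ᶜ := by
  obtain ⟨y, hy, hy'⟩ := not_subset.1 (hIK _ (isCompact_children hK ha))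
  refine ⟨y, hy, fun x hx hx' => hy' ⟨x, ⟨hx, fun i hi => ?_⟩, ?_⟩⟩
  · rw [hx' i (by omega), Function.update_of_ne (by omega)]
  · show x.1 n = y
    rw [hx' n (by omega), Function.update_self]

end Pool.Agent.Q209.PG
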